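import Pool.Agent.Helper227.Mach

/-!
# Shift complex sequences, deep classes, negligible classes
-/

set_option autoImplicit false

namespace Pool.Agent.H837R3.Dp

open Pool.Agent.Helper227

/-- The block `X(a) X(a+1) ... X(a+m-1)` of the sequence `X`. -/
def blk (X : ℕ → Bool) (a m : ℕ) : List Bool := (List.range m).map fun i => X (a + i)

/-- Order functions: total computable, nondecreasing and unbounded. -/
def IsOrder (f : ℕ → ℕ) : Prop := Computable f ∧ Monotone f ∧ ∀ b : ℕ, ∃ n : ℕ, b ≤ f n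

/-- `SC(f, c)`: the sequences `X` with `K(τ) ≥ f(|τ|) - c` for every block `τ` of `X`, where `K` is
prefix-free complexity with respect to `U`. -/
def SC (U : List Bool →. List Bool) (f : ℕ → ℕ) (c : ℕ) : Set (ℕ → Bool) :=
  {X | ∀ a m : ℕ, f m ≤ KU U (blk X a m) + c}

/-- `ν` is a left-c.e. continuous semimeasure on the finite binary strings: `ν` is nonnegative,
`ν ∅ ≤ 1`, `ν (σ0) + ν (σ1) ≤ ν σ`, and the set of the pairs of a string `σ` and a rational number
`a / (b + 1)` less than `ν σ` is c.e. -/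
structure IsLeftCESemimeasure (ν : List Bool → ℝ) : Prop where
  nonneg : ∀ σ, 0 ≤ ν σ
  nil_le : ν [] ≤ 1
  split : ∀ σ, ν (σ ++ [false]) + ν (σ ++ [true]) ≤ ν σ
  leftce : REPred fun x : List Bool × ℕ × ℕ => (x.2.1 : ℝ) / (x.2.2 + 1) < ν x.1

/-- `ν` is a universal left-c.e. continuous semimeasure: it dominates every left-c.e. continuous
semimeasure up to a multiplicative constant. -/
def IsUniversalSemimeasure (ν : List Bool → ℝ) : Prop :=
  IsLeftCESemimeasure ν ∧ ∀ μ : List Bool → ℝ, IsLeftCESemimeasure μ →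
    ∃ c : ℝ, 0 < c ∧ ∀ σ, c * μ σ ≤ ν σ

/-- `P ↾ m`: the initial segments of length `m` of the members of `P`. -/
def restr (P : Set (ℕ → Bool)) (m : ℕ) : Set (List Bool) := {σ | ∃ X ∈ P, blk X 0 m = σ}

/-- `P` is deep with respect to the semimeasure `ν`: there is a computable order function `h` with
`ν (P ↾ h(n)) ≤ 2 ^ (-n)` for all `n`. -/
def Deep (ν : List Bool → ℝ) (P : Set (ℕ → Bool)) : Prop :=
  ∃ h : ℕ → ℕ, IsOrder h ∧ ∀ n : ℕ, ∑' σ : restr P (h n), ν σ ≤ (1 / 2 : ℝ) ^ n

/-- `P` is negligible: the set of the sequences that Turing compute a member of `P` has measure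
zero. -/
def Negligible (P : Set (ℕ → Bool)) : Prop := lam {Y | ∃ X ∈ P, TLe X Y} = 0

end Pool.Agent.H837R3.Dp
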