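import Pool.Agent.H837R3.Dp.Proc

/-!
# Analysis of the greedy enumeration
-/

set_option autoImplicit false

namespace Pool.Agent.H837R3.Dp

open Encodable Pool.Agent.Helper227 Finset
open scoped Classical

theorem NN_eq (p : ℕ) : NN p = sc (kk p) := rfl

attribute [local irreducible] sc NN JJ kk ss bb ff allStr

variable {ν : List Bool → ℝ} {q : List Bool × ℕ × ℕ → ℕ → Prop}

/-- `q` is a presentation of the lower cut of `ν`. -/
structure Pres (ν : List Bool → ℝ) (q : List Bool × ℕ × ℕ → ℕ → Prop) : Prop where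
  prim : PrimrecRel q
  mono : ∀ a m n, m ≤ n → q a m → q a n
  iff : ∀ a : List Bool × ℕ × ℕ, (a.2.1 : ℝ) / (a.2.2 + 1) < ν a.1 ↔ ∃ n, q a n

theorem exists_pres (h : IsLeftCESemimeasure ν) : ∃ q, Pres ν q := by
  obtain ⟨q, h1, h2, h3⟩ := S1.of_re h.leftce
  exact ⟨q, h1, h2, h3⟩

theorem le_pow_sub (J : ℕ) : ((2 ^ J - 1 : ℕ) : ℝ) + 1 = 2 ^ J := by
  have : 1 ≤ 2 ^ J := Nat.one_le_two_pow
  rw [Nat.cast_sub this]; push_cast; ring

theorem apx_le (hP : Pres ν q) (hν : IsLeftCESemimeasure ν) (J t : ℕ) (x : List Bool) :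
    (apx q J t x : ℝ) ≤ 2 ^ J * ν x := by
  have hy : 0 ≤ 2 ^ J * ν x := mul_nonneg (by positivity) (hν.nonneg x)
  unfold apx
  have hnd : ((List.range (2 ^ J)).filter fun j => q (x, j + 1, 2 ^ J - 1) t).Nodup :=
    List.nodup_range.filter _
  rw [← List.toFinset_card_of_nodup hnd]
  have hsub : ((List.range (2 ^ J)).filter fun j => q (x, j + 1, 2 ^ J - 1) t).toFinset ⊆
      range ⌊2 ^ J * ν x⌋₊ := by
    intro j hj
    rw [List.mem_toFinset, List.mem_filter, decide_eq_true_eq] at hj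
    have h1 := (hP.iff (x, j + 1, 2 ^ J - 1)).2 ⟨t, hj.2⟩
    simp only at h1
    rw [le_pow_sub, div_lt_iff₀ (by positivity)] at h1
    rw [mem_range]
    have h2 : j + 1 ≤ ⌊2 ^ J * ν x⌋₊ := by
      rw [Nat.le_floor_iff hy]
      linarith
    omega
  calc ((((List.range (2 ^ J)).filter fun j => q (x, j + 1, 2 ^ J - 1) t).toFinset.card : ℕ) : ℝ)
      ≤ ((range ⌊2 ^ J * ν x⌋₊).card : ℝ) := by exact_mod_cast card_le_card hsub
    _ = (⌊2 ^ J * ν x⌋₊ : ℝ) := by rw [card_range]
    _ ≤ 2 ^ J * ν x := Nat.floor_le hy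

theorem apx_mono (hP : Pres ν q) (J : ℕ) (x : List Bool) {t t' : ℕ} (h : t ≤ t') :
    apx q J t x ≤ apx q J t' x := by
  unfold apx
  refine List.Sublist.length_le (List.monotone_filter_right _ ?_)
  intro j hj
  rw [decide_eq_true_eq] at hj ⊢
  exact hP.mono _ _ _ h hj

theorem apx_lim (hP : Pres ν q) (J : ℕ) (x : List Bool) (hx : ν x ≤ 1) :
    ∃ t₀, ∀ t ≥ t₀, 2 ^ J * ν x - 1 ≤ (apx q J t x : ℝ) := by
  set y := 2 ^ J * ν x with hy
  have hex : ∀ j : ℕ, (j : ℝ) + 1 < y → ∃ n, q (x, j + 1, 2 ^ J - 1) n := by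
    intro j hj
    rw [← hP.iff]
    simp only
    rw [le_pow_sub, div_lt_iff₀ (by positivity)]
    push_cast
    linarith
  choose! g hg using hex
  refine ⟨(range ⌈y⌉₊).sup g, fun t ht => ?_⟩
  have hsub : range (⌈y⌉₊ - 1) ⊆
      ((List.range (2 ^ J)).filter fun j => q (x, j + 1, 2 ^ J - 1) t).toFinset := by
    intro j hj
    rw [mem_range] at hj
    have h1 : j + 1 < ⌈y⌉₊ := by omega
    have h2 : (j : ℝ) + 1 < y := by
      have := Nat.lt_ceil.1 h1
      push_cast at this
      exact this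
    rw [List.mem_toFinset, List.mem_filter, decide_eq_true_eq, List.mem_range]
    refine ⟨?_, hP.mono _ _ _ ?_ (hg j h2)⟩
    · have h3 : (j : ℝ) < 2 ^ J := by
        have : y ≤ 2 ^ J := by
          rw [hy]
          calc (2 : ℝ) ^ J * ν x ≤ 2 ^ J * 1 := mul_le_mul_of_nonneg_left hx (by positivity)
            _ = 2 ^ J := mul_one _
        linarith
      exact_mod_cast h3
    · exact (le_sup (f := g) (mem_range.2 (by omega : j < ⌈y⌉₊))).trans ht
  unfold apx
  have hnd : ((List.range (2 ^ J)).filter fun j => q (x, j + 1, 2 ^ J - 1) t).Nodup :=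
    List.nodup_range.filter _
  rw [← List.toFinset_card_of_nodup hnd]
  have h4 : ((⌈y⌉₊ - 1 : ℕ) : ℝ) ≤
      ((((List.range (2 ^ J)).filter fun j => q (x, j + 1, 2 ^ J - 1) t).toFinset.card : ℕ) : ℝ) := by
    have := card_le_card hsub
    rw [card_range] at this
    exact_mod_cast this
  have h5 : y - 1 ≤ ((⌈y⌉₊ - 1 : ℕ) : ℝ) := by
    have h6 : y ≤ ⌈y⌉₊ := Nat.le_ceil y
    have h7 : (⌈y⌉₊ : ℝ) ≤ ((⌈y⌉₊ - 1 : ℕ) : ℝ) + 1 := by
      have : ⌈y⌉₊ ≤ (⌈y⌉₊ - 1) + 1 := by omega
      exact_mod_cast this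
    linarith
  linarith

/-- the strings of length `n` -/
def str (n : ℕ) : Finset (List Bool) := (allStr n).toFinset

theorem mem_str {n : ℕ} {x : List Bool} : x ∈ str n ↔ x.length = n := by
  unfold str
  rw [List.mem_toFinset, mem_allStr]

theorem card_str (n : ℕ) : (str n).card = 2 ^ n := by
  unfold str
  rw [List.toFinset_card_of_nodup (nodup_allStr n), length_allStr]

theorem str_succ (n : ℕ) : str (n + 1) = (str n).biUnion fun y => {y ++ [false], y ++ [true]} := by
  ext x
  rw [mem_str, mem_biUnion]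
  constructor
  · intro h
    have hne : x ≠ [] := by
      rintro rfl; simp at h
    refine ⟨x.dropLast, by rw [mem_str, List.length_dropLast, h]; rfl, ?_⟩
    rw [mem_insert, mem_singleton]
    have h1 := List.dropLast_append_getLast hne
    cases hb : x.getLast hne
    · left; rw [hb] at h1; exact h1.symm
    · right; rw [hb] at h1; exact h1.symm
  · rintro ⟨y, hy, h⟩
    rw [mem_str] at hy
    rw [mem_insert, mem_singleton] at h
    rcases h with rfl | rfl <;> simp [hy]

theorem sum_str_le (hν : IsLeftCESemimeasure ν) (n : ℕ) : ∑ x ∈ str n, ν x ≤ 1 := by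
  refine le_trans ?_ hν.nil_le
  induction n with
  | zero =>
    have : str 0 = {[]} := by ext x; rw [mem_str, mem_singleton]; exact List.length_eq_zero_iff
    rw [this, sum_singleton]
  | succ n ih =>
    refine le_trans ?_ ih
    rw [str_succ, sum_biUnion]
    · refine sum_le_sum fun y _ => ?_
      rw [sum_pair (by simp)]
      exact hν.split y
    · intro a _ b _ hab
      rw [Function.onFun, disjoint_left]
      intro z hz hz2
      rw [mem_insert, mem_singleton] at hz hz2
      apply hab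
      rcases hz with rfl | rfl <;> rcases hz2 with h | h <;>
        exact (List.append_inj' h rfl).1

theorem le_one_of_sm (hν : IsLeftCESemimeasure ν) (x : List Bool) : ν x ≤ 1 :=
  (single_le_sum (f := ν) (fun y _ => hν.nonneg y) (mem_str.2 rfl)).trans (sum_str_le hν x.length)

theorem kil_eq (p t : ℕ) (L : List (List Bool)) (u : List Bool) :
    kil q p t L u = ∑ x ∈ (str (NN p)).filter (fun x => avoid L x ∧ inf u x), apx q (JJ p) t x := by
  unfold kil
  rw [← List.sum_eq_foldr, ← List.sum_toFinset _ ((nodup_allStr _).filter _), List.toFinset_filter]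
  refine sum_congr ?_ fun _ _ => rfl
  ext x
  simp only [mem_filter, str, decide_eq_true_eq]

/-! ### the strings that survive -/

theorem mem_LL {p t : ℕ} {v : List Bool} (h : v ∈ LL q p t) :
    ∃ t', cand t' = v ∧ Cnd q p t' (LL q p t') := by
  induction t with
  | zero => simp [LL] at h
  | succ t ih =>
    rw [LL] at h
    split_ifs at h with hc
    · rcases List.mem_cons.1 h with rfl | h
      · exact ⟨t, rfl, hc⟩
      · exact ih h
    · exact ih h

/-- the strings of length `NN p` that survive -/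
noncomputable def SS (q : List Bool × ℕ × ℕ → ℕ → Prop) (p : ℕ) : Finset (List Bool) :=
  (str (NN p)).filter fun x => ∀ t, avoid (LL q p t) x

theorem cand_pair (u : List Bool) (t : ℕ) : cand (Nat.pair (encode u) t) = u := by
  unfold cand
  rw [Nat.unpair_pair, encodek, Option.getD_some]

theorem sum_SS_le (hP : Pres ν q) (hν : IsLeftCESemimeasure ν) (p : ℕ) :
    ∑ x ∈ SS q p, ν x ≤ (1 / 2 : ℝ) ^ p := by
  by_contra hcon
  push Not at hcon
  have hlim := fun x => apx_lim hP (JJ p) x (le_one_of_sm hν x)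
  choose g hg using hlim
  set t₀ := (str (NN p)).sup g with ht₀
  have hstr : ∀ x ∈ SS q p, x ∈ str (NN p) := fun x hx => (mem_filter.1 hx).1
  have hge : ∀ x ∈ SS q p, ν x - (1 / 2) ^ JJ p ≤ (apx q (JJ p) t₀ x : ℝ) / 2 ^ JJ p := by
    intro x hx
    have h1 := hg x t₀ (le_sup (f := g) (hstr x hx))
    rw [le_div_iff₀ (by positivity), _root_.sub_mul, ← mul_pow]
    norm_num
    linarith
  have hmass : (1 / 2 : ℝ) ^ (p + 1) < ∑ x ∈ SS q p, (apx q (JJ p) t₀ x : ℝ) / 2 ^ JJ p := by
    have h1 : ∑ x ∈ SS q p, (ν x - (1 / 2 : ℝ) ^ JJ p) ≤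
        ∑ x ∈ SS q p, (apx q (JJ p) t₀ x : ℝ) / 2 ^ JJ p := sum_le_sum hge
    rw [sum_sub_distrib, sum_const, nsmul_eq_mul] at h1
    have h2 : ((SS q p).card : ℝ) ≤ 2 ^ NN p := by
      have : (SS q p).card ≤ (str (NN p)).card := card_filter_le _ _
      rw [card_str] at this
      exact_mod_cast this
    have h3 : ((SS q p).card : ℝ) * (1 / 2) ^ JJ p ≤ (1 / 2) ^ (p + 1) := by
      calc ((SS q p).card : ℝ) * (1 / 2) ^ JJ p ≤ 2 ^ NN p * (1 / 2) ^ JJ p :=
            mul_le_mul_of_nonneg_right h2 (by positivity)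
        _ = (1 / 2) ^ (p + 1) := by
            unfold JJ
            rw [show NN p + p + 1 = NN p + (p + 1) by ring, pow_add, ← mul_assoc, ← mul_pow]
            norm_num
    have h4 : (1 / 2 : ℝ) ^ p = (1 / 2) ^ (p + 1) + (1 / 2) ^ (p + 1) := by
      rw [pow_succ]; ring
    linarith
  obtain ⟨u, hu⟩ := kill_scales p (SS q p) (fun x => (apx q (JJ p) t₀ x : ℝ) / 2 ^ JJ p)
    (fun x _ => by positivity) (fun x hx => mem_str.1 (hstr x hx)) hmass (fun _ => inferInstance)
  set t := Nat.pair (encode u) t₀ with ht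
  have htt : t₀ ≤ t := Nat.right_le_pair _ _
  have hcand : cand t = u := cand_pair u t₀
  have hCnd : Cnd q p t (LL q p t) := by
    unfold Cnd
    rw [hcand, kil_eq]
    have h1 : ∑ x ∈ (SS q p).filter (fun x => inf u x), apx q (JJ p) t₀ x ≤
        ∑ x ∈ (str (NN p)).filter (fun x => avoid (LL q p t) x ∧ inf u x), apx q (JJ p) t x := by
      refine le_trans (sum_le_sum fun x _ => apx_mono hP (JJ p) x htt) ?_
      refine sum_le_sum_of_subset ?_
      intro x hx
      rw [mem_filter] at hx ⊢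
      exact ⟨hstr x hx.1, (mem_filter.1 hx.1).2 t, hx.2⟩
    refine le_trans ?_ (Nat.mul_le_mul_left _ h1)
    rw [← sum_div, div_le_div_iff₀ (by positivity) (by positivity)] at hu
    have h2 : ((2 ^ (JJ p + (3 * p + 1)) : ℕ) : ℝ) ≤
        ((2 ^ ff u.length * ∑ x ∈ (SS q p).filter (fun x => inf u x), apx q (JJ p) t₀ x : ℕ) : ℝ) := by
      push_cast
      rw [pow_add, mul_comm ((2 : ℝ) ^ JJ p), mul_comm ((2 : ℝ) ^ ff u.length)]
      exact hu
    exact Nat.cast_le.1 h2
  have hmem : u ∈ LL q p (t + 1) := by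
    rw [LL, if_pos hCnd, hcand]
    exact List.mem_cons_self
  have hne : ((SS q p).filter (fun x => inf u x)).Nonempty := by
    by_contra h
    rw [not_nonempty_iff_eq_empty] at h
    rw [h, sum_empty] at hu
    have : (0 : ℝ) < 2 ^ (3 * p + 1) / 2 ^ ff u.length := by positivity
    linarith
  obtain ⟨x, hx⟩ := hne
  rw [mem_filter] at hx
  exact (mem_filter.1 hx.1).2 (t + 1) u hmem hx.2

/-! ### the cost -/

/-- the mass charged to stage `t` -/
noncomputable def chg (q : List Bool × ℕ × ℕ → ℕ → Prop) (p t : ℕ) : ℝ :=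
  if Cnd q p t (LL q p t) then 2 ^ (3 * p + 1) / 2 ^ ff (cand t).length else 0

theorem chg_nonneg (p t : ℕ) : 0 ≤ chg q p t := by
  unfold chg
  split_ifs
  · positivity
  · exact le_rfl

theorem sum_chg_le (hP : Pres ν q) (hν : IsLeftCESemimeasure ν) (p n : ℕ) :
    ∑ t ∈ range n, chg q p t ≤ ∑ x ∈ (str (NN p)).filter (fun x => ¬ avoid (LL q p n) x), ν x := by
  induction n with
  | zero => rw [range_zero, sum_empty]; exact sum_nonneg fun x _ => hν.nonneg x
  | succ n ih =>
    rw [sum_range_succ]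
    by_cases hc : Cnd q p n (LL q p n)
    · have h1 : (str (NN p)).filter (fun x => ¬ avoid (LL q p (n + 1)) x) =
          (str (NN p)).filter (fun x => ¬ avoid (LL q p n) x) ∪
          (str (NN p)).filter (fun x => avoid (LL q p n) x ∧ inf (cand n) x) := by
        ext x
        rw [LL, if_pos hc]
        simp only [mem_filter, mem_union]
        have : avoid (cand n :: LL q p n) x ↔ ¬ inf (cand n) x ∧ avoid (LL q p n) x := by
          unfold avoid
          simp
        rw [this]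
        tauto
      have h2 : Disjoint ((str (NN p)).filter (fun x => ¬ avoid (LL q p n) x))
          ((str (NN p)).filter (fun x => avoid (LL q p n) x ∧ inf (cand n) x)) := by
        rw [disjoint_left]
        intro x hx hx2
        rw [mem_filter] at hx hx2
        exact hx.2 hx2.2.1
      rw [h1, sum_union h2]
      refine add_le_add ih ?_
      rw [chg, if_pos hc, div_le_iff₀ (by positivity)]
      have hc' := hc
      unfold Cnd at hc'
      have h3 : ((2 ^ (JJ p + (3 * p + 1)) : ℕ) : ℝ) ≤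
          ((2 ^ ff (cand n).length * kil q p n (LL q p n) (cand n) : ℕ) : ℝ) :=
        Nat.cast_le.2 hc'
      rw [kil_eq] at h3
      push_cast at h3
      have h4 : ∑ x ∈ (str (NN p)).filter (fun x => avoid (LL q p n) x ∧ inf (cand n) x),
          (apx q (JJ p) n x : ℝ) ≤ 2 ^ JJ p *
          ∑ x ∈ (str (NN p)).filter (fun x => avoid (LL q p n) x ∧ inf (cand n) x), ν x := by
        rw [mul_sum]
        exact sum_le_sum fun x _ => apx_le hP hν _ _ x
      have h5 : (2 : ℝ) ^ JJ p * 2 ^ (3 * p + 1) ≤ 2 ^ JJ p *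
          ((∑ x ∈ (str (NN p)).filter (fun x => avoid (LL q p n) x ∧ inf (cand n) x), ν x) *
            2 ^ ff (cand n).length) := by
        calc (2 : ℝ) ^ JJ p * 2 ^ (3 * p + 1) = 2 ^ (JJ p + (3 * p + 1)) := (pow_add _ _ _).symm
          _ ≤ 2 ^ ff (cand n).length *
              ∑ x ∈ (str (NN p)).filter (fun x => avoid (LL q p n) x ∧ inf (cand n) x),
                (apx q (JJ p) n x : ℝ) := h3
          _ ≤ 2 ^ ff (cand n).length * (2 ^ JJ p *
              ∑ x ∈ (str (NN p)).filter (fun x => avoid (LL q p n) x ∧ inf (cand n) x), ν x) :=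
            mul_le_mul_of_nonneg_left h4 (by positivity)
          _ = _ := by ring
      exact le_of_mul_le_mul_left h5 (by positivity)
    · rw [chg, if_neg hc, add_zero, LL, if_neg hc]
      exact ih

theorem sum_chg_le_one (hP : Pres ν q) (hν : IsLeftCESemimeasure ν) (p n : ℕ) :
    ∑ t ∈ range n, chg q p t ≤ 1 := by
  refine (sum_chg_le hP hν p n).trans ?_
  refine le_trans ?_ (sum_str_le hν (NN p))
  exact sum_le_sum_of_subset_of_nonneg (filter_subset _ _) fun x _ _ => hν.nonneg x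

theorem le_ff_of_Cnd (hP : Pres ν q) (hν : IsLeftCESemimeasure ν) {p t : ℕ}
    (h : Cnd q p t (LL q p t)) : 3 * p + 1 ≤ ff (cand t).length := by
  have h1 : chg q p t ≤ 1 := by
    refine le_trans ?_ (sum_chg_le_one hP hν p (t + 1))
    exact single_le_sum (f := fun t => chg q p t) (fun _ _ => chg_nonneg _ _)
      (mem_range.2 (Nat.lt_succ_self t))
  rw [chg, if_pos h, div_le_one (by positivity)] at h1
  exact (pow_le_pow_iff_right₀ (by norm_num : (1 : ℝ) < 2)).1 h1

theorem wr_req (hP : Pres ν q) (hν : IsLeftCESemimeasure ν) (m : ℕ) :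
    KC.wr (req q) m = (1 / 2) ^ (m.unpair.1 + 1) * chg q m.unpair.1 m.unpair.2 := by
  unfold KC.wr req chg
  split_ifs with h
  · simp only [Option.elim_some]
    have h1 := le_ff_of_Cnd hP hν h
    obtain ⟨d, hd⟩ := Nat.exists_eq_add_of_le h1
    rw [hd, show 3 * m.unpair.1 + 1 + d - 2 * m.unpair.1 = m.unpair.1 + 1 + d by omega]
    have e : (2 : ℝ) ^ (3 * m.unpair.1 + 1) / 2 ^ (3 * m.unpair.1 + 1 + d) = (1 / 2) ^ d := by
      rw [pow_add (2 : ℝ) (3 * m.unpair.1 + 1) d, div_mul_eq_div_div, div_self (by positivity),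
        one_div_pow]
    rw [e, ← pow_add]
  · simp

theorem sum_wr_le (hP : Pres ν q) (hν : IsLeftCESemimeasure ν) (n : ℕ) :
    ∑ i ∈ range n, KC.wr (req q) i ≤ 1 := by
  have h1 : ∑ i ∈ range n, KC.wr (req q) i ≤
      ∑ z ∈ range n ×ˢ range n, (1 / 2 : ℝ) ^ (z.1 + 1) * chg q z.1 z.2 := by
    calc ∑ i ∈ range n, KC.wr (req q) i
        = ∑ i ∈ range n, (1 / 2 : ℝ) ^ (i.unpair.1 + 1) * chg q i.unpair.1 i.unpair.2 :=
          sum_congr rfl fun i _ => wr_req hP hν i
      _ = ∑ z ∈ (range n).image Nat.unpair, (1 / 2 : ℝ) ^ (z.1 + 1) * chg q z.1 z.2 := by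
          rw [sum_image]
          intro a _ b _ hab
          have := congrArg (fun z : ℕ × ℕ => Nat.pair z.1 z.2) hab
          simpa using this
      _ ≤ _ := by
          refine sum_le_sum_of_subset_of_nonneg ?_ ?_
          · intro z hz
            rw [mem_image] at hz
            obtain ⟨i, hi, rfl⟩ := hz
            rw [mem_range] at hi
            rw [mem_product, mem_range, mem_range]
            exact ⟨(Nat.unpair_left_le i).trans_lt hi, (Nat.unpair_right_le i).trans_lt hi⟩
          · intro z _ _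
            exact mul_nonneg (by positivity) (chg_nonneg _ _)
  refine h1.trans ?_
  rw [sum_product]
  have h2 : ∀ p ∈ range n, ∑ t ∈ range n, (1 / 2 : ℝ) ^ (p + 1) * chg q p t ≤ (1 / 2) ^ (p + 1) := by
    intro p _
    rw [← mul_sum]
    calc (1 / 2 : ℝ) ^ (p + 1) * ∑ t ∈ range n, chg q p t ≤ (1 / 2 : ℝ) ^ (p + 1) * 1 :=
          mul_le_mul_of_nonneg_left (sum_chg_le_one hP hν p n) (by positivity)
      _ = _ := mul_one _
  refine (sum_le_sum h2).trans ?_
  have h3 : ∀ n : ℕ, ∑ p ∈ range n, (1 / 2 : ℝ) ^ (p + 1) = 1 - (1 / 2) ^ n := by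
    intro n
    induction n with
    | zero => simp
    | succ n ih => rw [sum_range_succ, ih, pow_succ]; ring
  rw [h3]
  have : (0 : ℝ) ≤ (1 / 2) ^ n := by positivity
  linarith

theorem exists_bound {U : List Bool →. List Bool} (hU : IsUniversal U) (hP : Pres ν q)
    (hν : IsLeftCESemimeasure ν) :
    ∃ e : ℕ, ∀ p t, Cnd q p t (LL q p t) → KU U (cand t) ≤ ff (cand t).length - 2 * p + e := by
  obtain ⟨M, hM1, hM2, hM3⟩ := KC.kraft_chaitin (primrec_req hP.prim) (sum_wr_le hP hν)
  obtain ⟨e, he⟩ := hU.2 M ⟨hM1, hM2⟩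
  refine ⟨e, fun p t h => ?_⟩
  have h1 : req q (Nat.pair p t) = some (ff (cand t).length - 2 * p, cand t) := by
    unfold req
    simp only [Nat.unpair_pair]
    rw [if_pos h]
  obtain ⟨τ, hτ1, hτ2⟩ := hM3 _ _ _ h1
  obtain ⟨τ', hτ3, hτ4⟩ := he τ _ hτ2
  have := KU_le hτ4
  omega

/-! ### depth -/

theorem inf_blk {X : ℕ → Bool} {N : ℕ} {v : List Bool} (h : inf v (blk X 0 N)) :
    ∃ a, blk X a v.length = v := by
  obtain ⟨a, _, ha⟩ := h
  rcases Nat.eq_zero_or_pos v.length with h0 | h0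
  · refine ⟨0, ?_⟩
    rw [h0, List.length_eq_zero_iff.1 h0]
    rfl
  · have hl : (sub (blk X 0 N) a v.length).length = v.length := by rw [ha]
    unfold sub at hl
    rw [List.length_take, List.length_drop, blk, List.length_map, List.length_range] at hl
    refine ⟨a, ?_⟩
    rw [← ha]
    refine List.ext_getElem ?_ fun i h1 h2 => ?_
    · rw [ha]; simp [blk]
    · simp [blk, sub]

theorem deep_of_univ {U : List Bool →. List Bool} (hU : IsUniversal U)
    (hν : IsLeftCESemimeasure ν) (c : ℕ) : Deep ν (SC U ff c) := by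
  obtain ⟨q, hP⟩ := exists_pres hν
  obtain ⟨e, he⟩ := exists_bound hU hP hν
  refine ⟨fun n => NN (n + (c + e + 1)), ⟨?_, ?_, ?_⟩, fun n => ?_⟩
  · exact (primrec_NN.comp (Primrec.nat_add.comp Primrec.id (Primrec.const _))).to_comp
  · intro a b hab
    simp only [NN_eq]
    refine sc_mono ?_
    unfold kk bb
    gcongr
  · intro b
    refine ⟨b, ?_⟩
    have h1 : b ≤ kk (b + (c + e + 1)) := by unfold kk bb; nlinarith
    simp only [NN_eq]
    exact h1.trans (lt_sc _).le
  · set p := n + (c + e + 1) with hp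
    have hsub : ∀ σ ∈ restr (SC U ff c) (NN p), σ ∈ SS q p := by
      rintro σ ⟨X, hX, rfl⟩
      rw [SS, mem_filter, mem_str]
      refine ⟨by simp [blk], fun t v hv hinf => ?_⟩
      obtain ⟨t', rfl, hc⟩ := mem_LL hv
      obtain ⟨a, ha⟩ := inf_blk hinf
      have h1 := hX a (cand t').length
      rw [ha] at h1
      have h2 := he p t' hc
      have h3 := le_ff_of_Cnd hP hν hc
      omega
    rw [tsum_subtype (restr (SC U ff c) (NN p)) ν, tsum_eq_sum (s := SS q p)]
    · calc ∑ σ ∈ SS q p, Set.indicator (restr (SC U ff c) (NN p)) ν σ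
          ≤ ∑ σ ∈ SS q p, ν σ :=
            sum_le_sum fun σ _ => Set.indicator_le_self' (fun σ _ => hν.nonneg σ) σ
        _ ≤ (1 / 2 : ℝ) ^ p := sum_SS_le hP hν p
        _ ≤ (1 / 2 : ℝ) ^ n := pow_le_pow_of_le_one (by norm_num) (by norm_num) (by omega)
    · intro σ hσ
      rw [Set.indicator_of_notMem]
      exact fun h => hσ (hsub σ h)

end Pool.Agent.H837R3.Dp
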