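import Mathlib

/-!
# The averaging lemma
-/

set_option autoImplicit false

namespace Pool.Agent.H837R3.Dp

open Finset

/-- The strings of length `m`. -/
def strs (m : ℕ) : Finset (List Bool) := (Finset.univ : Finset (Fin m → Bool)).image List.ofFn

theorem mem_strs {m : ℕ} {y : List Bool} : y ∈ strs m ↔ y.length = m := by
  unfold strs
  simp only [mem_image, mem_univ, true_and]
  constructor
  · rintro ⟨g, rfl⟩; simp
  · rintro rfl; exact ⟨y.get, List.ofFn_get y⟩

theorem card_strs_le (m : ℕ) : (strs m).card ≤ 2 ^ m := by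
  refine card_image_le.trans ?_
  simp

/-- The concatenations of `q` strings of `D`. -/
def cat (q : ℕ) (D : Finset (List Bool)) : Finset (List Bool) :=
  (Fintype.piFinset (fun _ : Fin q => D)).image fun l => (List.ofFn l).flatten

theorem card_cat_le (q : ℕ) (D : Finset (List Bool)) : (cat q D).card ≤ D.card ^ q := by
  refine card_image_le.trans ?_
  simp

theorem mem_cat {q : ℕ} {D : Finset (List Bool)} {l : List (List Bool)} (h : l.length = q)
    (hl : ∀ z ∈ l, z ∈ D) : l.flatten ∈ cat q D := by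
  subst h
  unfold cat
  rw [mem_image]
  refine ⟨l.get, ?_, by rw [List.ofFn_get]⟩
  rw [Fintype.mem_piFinset]
  intro i
  exact hl _ (List.get_mem l i)

/-- All the strings of length `m'` that are concatenations of `q` members of a set of at most `T`
strings of length `m`. -/
noncomputable def UU (m m' q : ℕ) (T : ℝ) : Finset (List Bool) :=
  (((strs m).powerset.filter fun D => (D.card : ℝ) ≤ T).biUnion fun D => cat q D).filter
    fun u => u.length = m'

theorem card_UU_le (m m' q : ℕ) {T : ℝ} (hT : 0 ≤ T) :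
    ((UU m m' q T).card : ℝ) ≤ 2 ^ (2 ^ m) * T ^ q := by
  classical
  calc ((UU m m' q T).card : ℝ)
      ≤ ((((strs m).powerset.filter fun D => (D.card : ℝ) ≤ T).biUnion fun D => cat q D).card : ℝ) := by
        exact_mod_cast card_filter_le _ _
    _ ≤ ∑ D ∈ (strs m).powerset.filter (fun D => (D.card : ℝ) ≤ T), ((cat q D).card : ℝ) := by
        exact_mod_cast card_biUnion_le
    _ ≤ ∑ D ∈ (strs m).powerset.filter (fun D => (D.card : ℝ) ≤ T), T ^ q := by
        refine sum_le_sum fun D hD => ?_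
        have h1 := (mem_filter.1 hD).2
        calc ((cat q D).card : ℝ) ≤ (D.card : ℝ) ^ q := by exact_mod_cast card_cat_le q D
          _ ≤ T ^ q := pow_le_pow_left₀ (by positivity) h1 q
    _ = (((strs m).powerset.filter (fun D => (D.card : ℝ) ≤ T)).card : ℝ) * T ^ q := by
        rw [sum_const, nsmul_eq_mul]
    _ ≤ 2 ^ (2 ^ m) * T ^ q := by
        refine mul_le_mul_of_nonneg_right ?_ (pow_nonneg hT q)
        calc (((strs m).powerset.filter (fun D => (D.card : ℝ) ≤ T)).card : ℝ)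
            ≤ ((strs m).powerset.card : ℝ) := by exact_mod_cast card_filter_le _ _
          _ ≤ 2 ^ (2 ^ m) := by
            rw [card_powerset]
            exact_mod_cast Nat.pow_le_pow_right (by norm_num) (card_strs_le m)

theorem kill {ι : Type*} (X : Finset ι) (ν : ι → ℝ) (hν : ∀ x ∈ X, 0 ≤ ν x)
    (M q : ℕ → ℕ) (D : ℕ → ι → Finset (List Bool))
    (hD1 : ∀ i, ∀ x ∈ X, ∀ y ∈ D i x, y.length = M i)
    (s k : ℕ) (hsk : s ≤ k)
    (hD2 : ∀ i, s ≤ i → i < k → ∀ x ∈ X, ∀ y ∈ D (i + 1) x,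
      ∃ l : List (List Bool), l.length = q i ∧ (∀ z ∈ l, z ∈ D i x) ∧ l.flatten = y)
    (hDk : ∀ x ∈ X, (D k x).Nonempty) (T θ : ℕ → ℝ) (hT0 : 2 ^ M s ≤ T s)
    (hTpos : ∀ i, 0 < T i)
    (hT : ∀ i, s ≤ i → i < k → T (i + 1) = 2 ^ 2 ^ M i * T i ^ q i * θ (i + 1))
    (hTk : T k < 1) (hmass : 0 < ∑ x ∈ X, ν x) :
    ∃ i, s < i ∧ i ≤ k ∧ ∃ u : List Bool, u.length = M i ∧
      θ i * (∑ x ∈ X, ν x) ≤ ((k - s : ℕ) : ℝ) * ∑ x ∈ X.filter (fun x => u ∈ D i x), ν x := by
  classical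
  have hs : ∀ x ∈ X, ((D s x).card : ℝ) ≤ T s := by
    intro x hx
    have h1 : D s x ⊆ strs (M s) := fun y hy => mem_strs.2 (hD1 s x hx y hy)
    calc ((D s x).card : ℝ) ≤ ((strs (M s)).card : ℝ) := by exact_mod_cast card_le_card h1
      _ ≤ 2 ^ M s := by exact_mod_cast card_strs_le _
      _ ≤ T s := hT0
  have hk : ∀ x ∈ X, T k < ((D k x).card : ℝ) := by
    intro x hx
    have h1 := (hDk x hx).card_pos
    have h2 : (1 : ℝ) ≤ (D k x).card := by exact_mod_cast h1
    linarith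
  have hex : ∀ x ∈ X, ∃ i, s ≤ i ∧ i < k ∧ ((D i x).card : ℝ) ≤ T i ∧
      T (i + 1) < ((D (i + 1) x).card : ℝ) := by
    intro x hx
    by_contra hcon
    push Not at hcon
    have hall : ∀ i, s ≤ i → i ≤ k → ((D i x).card : ℝ) ≤ T i := by
      intro i hi
      induction i, hi using Nat.le_induction with
      | base => intro _; exact hs x hx
      | succ i hi ih => intro h2; exact hcon i hi (by omega) (ih (by omega))
    exact absurd (hall k hsk le_rfl) (not_le.2 (hk x hx))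
  choose! lev hlev using hex
  have hsk' : s < k := by
    rcases Nat.lt_or_ge s k with h | h
    · exact h
    · exfalso
      have : s = k := le_antisymm hsk h
      subst this
      have h1 : (1 : ℝ) ≤ 2 ^ M s := one_le_pow₀ (by norm_num)
      linarith
  have hmap : ∀ x ∈ X, lev x ∈ Ico s k := fun x hx => mem_Ico.2 ⟨(hlev x hx).1, (hlev x hx).2.1⟩
  have hsum := sum_fiberwise_of_maps_to (f := ν) hmap
  have hne : (Ico s k).Nonempty := ⟨s, by simp [hsk']⟩
  obtain ⟨i, hi, hi2⟩ : ∃ i ∈ Ico s k,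
      ∑ x ∈ X, ν x ≤ ((k - s : ℕ) : ℝ) * ∑ x ∈ X.filter (fun x => lev x = i), ν x := by
    by_contra hcon
    push Not at hcon
    have h1 : ∑ i ∈ Ico s k, ((k - s : ℕ) : ℝ) * ∑ x ∈ X.filter (fun x => lev x = i), ν x <
        ∑ _i ∈ Ico s k, ∑ x ∈ X, ν x := sum_lt_sum_of_nonempty hne hcon
    rw [← mul_sum, hsum, sum_const, nsmul_eq_mul, Nat.card_Ico] at h1
    exact lt_irrefl _ h1
  rw [mem_Ico] at hi
  refine ⟨i + 1, by omega, by omega, ?_⟩
  set B := X.filter (fun x => lev x = i) with hB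
  have hBX : ∀ x ∈ B, x ∈ X := fun x hx => (mem_filter.1 hx).1
  set U := UU (M i) (M (i + 1)) (q i) (T i) with hU
  have hDU : ∀ x ∈ B, D (i + 1) x ⊆ U := by
    intro x hx y hy
    have hxX := hBX x hx
    have hl := hlev x hxX
    rw [(mem_filter.1 hx).2] at hl
    obtain ⟨l, h1, h2, h3⟩ := hD2 i hi.1 hi.2 x hxX y hy
    rw [hU, UU, mem_filter]
    refine ⟨?_, hD1 _ x hxX y hy⟩
    rw [mem_biUnion]
    refine ⟨D i x, ?_, ?_⟩
    · rw [mem_filter, mem_powerset]
      exact ⟨fun z hz => mem_strs.2 (hD1 i x hxX z hz), hl.2.2.1⟩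
    · rw [← h3]
      exact mem_cat h1 h2
  have hdouble : ∑ u ∈ U, ∑ x ∈ B.filter (fun x => u ∈ D (i + 1) x), ν x =
      ∑ x ∈ B, ν x * ((D (i + 1) x).card : ℝ) := by
    simp_rw [sum_filter]
    rw [sum_comm]
    refine sum_congr rfl fun x hx => ?_
    rw [← sum_filter]
    have : U.filter (fun u => u ∈ D (i + 1) x) = D (i + 1) x := by
      ext u
      rw [mem_filter]
      exact ⟨fun h => h.2, fun h => ⟨hDU x hx h, h⟩⟩
    rw [this, sum_const, nsmul_eq_mul, mul_comm]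
  have hlow : T (i + 1) * ∑ x ∈ B, ν x ≤ ∑ x ∈ B, ν x * ((D (i + 1) x).card : ℝ) := by
    rw [mul_sum]
    refine sum_le_sum fun x hx => ?_
    have hl := hlev x (hBX x hx)
    rw [(mem_filter.1 hx).2] at hl
    rw [mul_comm]
    exact mul_le_mul_of_nonneg_left hl.2.2.2.le (hν x (hBX x hx))
  have hBpos : 0 < ∑ x ∈ B, ν x := by
    by_contra hcon
    push Not at hcon
    have h0 : ((k - s : ℕ) : ℝ) * ∑ x ∈ B, ν x ≤ 0 :=
      mul_nonpos_of_nonneg_of_nonpos (by positivity) hcon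
    linarith
  have hUne : U.Nonempty := by
    by_contra hcon
    rw [not_nonempty_iff_eq_empty] at hcon
    rw [hcon, sum_empty] at hdouble
    rw [← hdouble] at hlow
    have := mul_pos (hTpos (i + 1)) hBpos
    linarith
  obtain ⟨u, hu, hu2⟩ : ∃ u ∈ U, T (i + 1) * ∑ x ∈ B, ν x ≤
      (U.card : ℝ) * ∑ x ∈ B.filter (fun x => u ∈ D (i + 1) x), ν x := by
    by_contra hcon
    push Not at hcon
    have h1 : ∑ u ∈ U, (U.card : ℝ) * ∑ x ∈ B.filter (fun x => u ∈ D (i + 1) x), ν x <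
        ∑ _u ∈ U, T (i + 1) * ∑ x ∈ B, ν x := sum_lt_sum_of_nonempty hUne hcon
    rw [← mul_sum, hdouble, sum_const, nsmul_eq_mul] at h1
    have h2 : (0 : ℝ) < U.card := by exact_mod_cast hUne.card_pos
    have h3 := lt_of_mul_lt_mul_left h1 h2.le
    linarith
  refine ⟨u, ?_, ?_⟩
  · rw [hU, UU, mem_filter] at hu
    exact hu.2
  · set F := ∑ x ∈ B.filter (fun x => u ∈ D (i + 1) x), ν x with hF
    have hF0 : 0 ≤ F := sum_nonneg fun x hx => hν x (hBX x (mem_filter.1 hx).1)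
    have hV : (0 : ℝ) < 2 ^ 2 ^ M i * T i ^ q i := by
      have := hTpos i
      positivity
    have h1 : T (i + 1) * ∑ x ∈ B, ν x ≤ (2 ^ 2 ^ M i * T i ^ q i) * F :=
      hu2.trans (mul_le_mul_of_nonneg_right (card_UU_le _ _ _ (hTpos i).le) hF0)
    rw [hT i hi.1 hi.2, mul_assoc] at h1
    have h2 : θ (i + 1) * ∑ x ∈ B, ν x ≤ F := le_of_mul_le_mul_left h1 hV
    have hθ : 0 < θ (i + 1) := by
      have h4 := hTpos (i + 1)
      rw [hT i hi.1 hi.2] at h4
      exact (mul_pos_iff_of_pos_left hV).1 h4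
    have h3 : F ≤ ∑ x ∈ X.filter (fun x => u ∈ D (i + 1) x), ν x := by
      refine sum_le_sum_of_subset_of_nonneg ?_ ?_
      · intro x hx
        rw [mem_filter] at hx ⊢
        exact ⟨hBX x hx.1, hx.2⟩
      · intro x hx _
        exact hν x (mem_filter.1 hx).1
    calc θ (i + 1) * ∑ x ∈ X, ν x
        ≤ θ (i + 1) * (((k - s : ℕ) : ℝ) * ∑ x ∈ B, ν x) := mul_le_mul_of_nonneg_left hi2 hθ.le
      _ = ((k - s : ℕ) : ℝ) * (θ (i + 1) * ∑ x ∈ B, ν x) := by ring
      _ ≤ ((k - s : ℕ) : ℝ) * F := mul_le_mul_of_nonneg_left h2 (by positivity)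
      _ ≤ ((k - s : ℕ) : ℝ) * ∑ x ∈ X.filter (fun x => u ∈ D (i + 1) x), ν x :=
        mul_le_mul_of_nonneg_left h3 (by positivity)

end Pool.Agent.H837R3.Dp
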