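import Pool.Agent.H837R3.Dp.Greedy

/-!
# Classes that are deep for every left-c.e. semimeasure are negligible
-/

set_option autoImplicit false

namespace Pool.Agent.H837R3.Dp

open Encodable Pool.Agent.Helper227 MeasureTheory Nat.Partrec
open scoped ENNReal Classical

/-- the functional with index `c` has seen, on the oracle string `σ`, the value `b` at `n` -/
def Dv (c : Code) (σ : List Bool) (n : ℕ) (b : Bool) : Prop :=
  ∃ k < σ.length + 1, (c.evaln σ.length (encode (σ.take k, n, b))).isSome = true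

theorem primrec_Dv (c : Code) : PrimrecPred fun x : List Bool × ℕ × Bool => Dv c x.1 x.2.1 x.2.2 := by
  unfold Dv
  refine PP.ex_lt (α := List Bool × ℕ × Bool) (f := fun x => x.1.length + 1)
    (p := fun x k => (c.evaln x.1.length (encode (x.1.take k, x.2.1, x.2.2))).isSome = true) ?_
    (Primrec.succ.comp (Primrec.list_length.comp Primrec.fst))
  refine Primrec.primrecPred ?_
  have : Primrec fun z : (List Bool × ℕ × Bool) × ℕ =>
      (c.evaln z.1.1.length (encode (z.1.1.take z.2, z.1.2.1, z.1.2.2))).isSome := by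
    refine Primrec.option_isSome.comp (Nat.Partrec.Code.primrec_evaln.comp
      (((Primrec.list_length.comp (Primrec.fst.comp Primrec.fst)).pair (Primrec.const c)).pair
      (Primrec.encode.comp ((Primrec.list_take.comp Primrec.snd (Primrec.fst.comp Primrec.fst)).pair
        ((Primrec.fst.comp (Primrec.snd.comp Primrec.fst)).pair
          (Primrec.snd.comp (Primrec.snd.comp Primrec.fst)))))))
  simpa using this

theorem Dv_mono {c : Code} {σ τ : List Bool} {n : ℕ} {b : Bool} (h : σ <+: τ) (hD : Dv c σ n b) :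
    Dv c τ n b := by
  obtain ⟨k, hk, h1⟩ := hD
  have hl := h.length_le
  refine ⟨k, by omega, ?_⟩
  have h2 : τ.take k = σ.take k := by
    rw [List.prefix_iff_eq_take.1 h, List.take_take, min_eq_left (by omega)]
  rw [h2]
  rw [Option.isSome_iff_exists] at h1 ⊢
  obtain ⟨y, hy⟩ := h1
  exact ⟨y, Code.evaln_mono hl hy⟩

/-- trimmed version: only the first value counts -/
def Tv (c : Code) (σ : List Bool) (n : ℕ) (b : Bool) : Prop :=
  ∃ k < σ.length + 1, (Dv c (σ.take k) n b ∧ ¬ (b = true ∧ Dv c (σ.take k) n false)) ∧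
    ∀ j < k, ¬ Dv c (σ.take j) n (!b)

theorem primrec_Tv (c : Code) : PrimrecPred fun x : List Bool × ℕ × Bool => Tv c x.1 x.2.1 x.2.2 := by
  unfold Tv
  refine PP.ex_lt (α := List Bool × ℕ × Bool) (f := fun x => x.1.length + 1)
    (p := fun x k => (Dv c (x.1.take k) x.2.1 x.2.2 ∧
      ¬ (x.2.2 = true ∧ Dv c (x.1.take k) x.2.1 false)) ∧
      ∀ j < k, ¬ Dv c (x.1.take j) x.2.1 (!x.2.2)) ?_
    (Primrec.succ.comp (Primrec.list_length.comp Primrec.fst))
  refine PrimrecPred.and (PrimrecPred.and ?_ (PrimrecPred.not (PrimrecPred.and ?_ ?_))) ?_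
  · exact (primrec_Dv c).comp (f := fun z : (List Bool × ℕ × Bool) × ℕ =>
      (z.1.1.take z.2, z.1.2.1, z.1.2.2))
      ((Primrec.list_take.comp Primrec.snd (Primrec.fst.comp Primrec.fst)).pair
        (Primrec.snd.comp Primrec.fst))
  · exact Primrec.eq.comp (Primrec.snd.comp (Primrec.snd.comp Primrec.fst)) (Primrec.const true)
  · exact (primrec_Dv c).comp (f := fun z : (List Bool × ℕ × Bool) × ℕ =>
      (z.1.1.take z.2, z.1.2.1, false))
      ((Primrec.list_take.comp Primrec.snd (Primrec.fst.comp Primrec.fst)).pair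
        ((Primrec.fst.comp (Primrec.snd.comp Primrec.fst)).pair (Primrec.const false)))
  · refine PP.all_lt (α := (List Bool × ℕ × Bool) × ℕ) (f := fun z => z.2)
      (p := fun z j => ¬ Dv c (z.1.1.take j) z.1.2.1 (!z.1.2.2)) ?_ Primrec.snd
    refine PrimrecPred.not ((primrec_Dv c).comp (f := fun z : ((List Bool × ℕ × Bool) × ℕ) × ℕ =>
      (z.1.1.1.take z.2, z.1.1.2.1, !z.1.1.2.2)) ?_)
    exact (Primrec.list_take.comp Primrec.snd (Primrec.fst.comp (Primrec.fst.comp
      Primrec.fst))).pair ((Primrec.fst.comp (Primrec.snd.comp (Primrec.fst.comp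
      Primrec.fst))).pair (Primrec.not.comp (Primrec.snd.comp (Primrec.snd.comp
      (Primrec.fst.comp Primrec.fst)))))

theorem Tv_mono {c : Code} {σ τ : List Bool} {n : ℕ} {b : Bool} (h : σ <+: τ) (hT : Tv c σ n b) :
    Tv c τ n b := by
  obtain ⟨k, hk, ⟨h1, h2⟩, h3⟩ := hT
  have hl := h.length_le
  have ht : ∀ j ≤ k, τ.take j = σ.take j := by
    intro j hj
    rw [List.prefix_iff_eq_take.1 h, List.take_take, min_eq_left (by omega)]
  refine ⟨k, by omega, ⟨by rwa [ht k le_rfl], by rwa [ht k le_rfl]⟩, fun j hj => ?_⟩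
  rw [ht j hj.le]
  exact h3 j hj

theorem Tv_disj {c : Code} {Y : ℕ → Bool} {s t n : ℕ} (h1 : Tv c (pre Y s) n false)
    (h2 : Tv c (pre Y t) n true) : False := by
  obtain ⟨k, hk, ⟨a1, _⟩, a3⟩ := h1
  obtain ⟨l, hl, ⟨b1, b2⟩, b3⟩ := h2
  rw [length_pre] at hk hl
  rw [take_pre _ _ _ (by omega)] at a1 b1 b2
  rcases Nat.lt_or_ge l k with h | h
  · have := a3 l h
    rw [take_pre _ _ _ (by omega)] at this
    exact this b1
  · exact b2 ⟨rfl, Dv_mono (pre_prefix Y h) a1⟩

/-- the oracles on which the functional computes an extension of `σ` -/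
def GG (c : Code) (σ : List Bool) : Set (ℕ → Bool) :=
  {Y | ∃ t, ∀ i < σ.length, Tv c (pre Y t) i (σ.getD i false)}

theorem measurableSet_GG (c : Code) (σ : List Bool) : MeasurableSet (GG c σ) :=
  measurableSet_open fun _ ζ => ∀ i < σ.length, Tv c ζ i (σ.getD i false)

/-- the induced semimeasure -/
noncomputable def nu (c : Code) (σ : List Bool) : ℝ := (lam (GG c σ)).toReal

theorem GG_split (c : Code) (σ : List Bool) (b : Bool) : GG c (σ ++ [b]) ⊆ GG c σ := by
  rintro Y ⟨t, ht⟩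
  refine ⟨t, fun i hi => ?_⟩
  have h1 := ht i (by rw [List.length_append]; omega)
  rwa [List.getD_append _ _ _ _ hi] at h1

theorem GG_disj (c : Code) (σ : List Bool) : Disjoint (GG c (σ ++ [false])) (GG c (σ ++ [true])) := by
  rw [Set.disjoint_left]
  rintro Y ⟨s, hs⟩ ⟨t, ht⟩
  have h1 := hs σ.length (by simp)
  have h2 := ht σ.length (by simp)
  rw [List.getD_append_right _ _ _ _ le_rfl] at h1 h2
  simp only [Nat.sub_self, List.getD_cons_zero] at h1 h2
  exact Tv_disj h1 h2

theorem nu_sm (c : Code) : IsLeftCESemimeasure (nu c) := by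
  have hfin : ∀ S : Set (ℕ → Bool), lam S ≠ ⊤ := fun S => measure_ne_top _ _
  refine ⟨fun σ => ENNReal.toReal_nonneg, ?_, fun σ => ?_, ?_⟩
  · unfold nu
    have : lam (GG c []) ≤ 1 := prob_le_one
    exact ENNReal.toReal_le_of_le_ofReal (by norm_num) (by simpa using this)
  · unfold nu
    rw [← ENNReal.toReal_add (hfin _) (hfin _), ← measure_union (GG_disj c σ) (measurableSet_GG c _)]
    refine ENNReal.toReal_mono (hfin _) (measure_mono ?_)
    exact Set.union_subset (GG_split c σ false) (GG_split c σ true)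
  · have hS : S1 fun x : List Bool × ℕ × ℕ => ((x.2.1 : ℕ) : ℝ≥0∞) / ((x.2.2 + 1 : ℕ) : ℝ≥0∞) <
        lam {Y | ∃ t, (fun (x : List Bool × ℕ × ℕ) (ζ : List Bool) =>
          ∀ i < x.1.length, Tv c ζ i (x.1.getD i false)) x (pre Y t)} := by
      refine s1_measure_gt (α := List Bool × ℕ × ℕ)
        (P := fun x ζ => ∀ i < x.1.length, Tv c ζ i (x.1.getD i false))
        (a := fun x => x.2.1) (b := fun x => x.2.2 + 1) ?_ (Primrec.fst.comp Primrec.snd)
        (Primrec.succ.comp (Primrec.snd.comp Primrec.snd)) (fun x => Nat.succ_ne_zero _)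
      refine S1.of_prim ?_
      refine PP.all_lt (α := (List Bool × ℕ × ℕ) × List Bool) (f := fun z => z.1.1.length)
        (p := fun z i => Tv c z.2 i (z.1.1.getD i false)) ?_
        (Primrec.list_length.comp (Primrec.fst.comp Primrec.fst))
      exact (primrec_Tv c).comp (f := fun w : ((List Bool × ℕ × ℕ) × List Bool) × ℕ =>
        (w.1.2, w.2, w.1.1.1.getD w.2 false))
        ((Primrec.snd.comp Primrec.fst).pair (Primrec.snd.pair
          ((Primrec.list_getD false).comp (Primrec.fst.comp (Primrec.fst.comp Primrec.fst))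
            Primrec.snd)))
    refine hS.re.of_eq fun x => ?_
    have e : {Y | ∃ t, (fun (x : List Bool × ℕ × ℕ) (ζ : List Bool) =>
          ∀ i < x.1.length, Tv c ζ i (x.1.getD i false)) x (pre Y t)} = GG c x.1 := rfl
    rw [e]
    unfold nu
    rw [← ENNReal.ofReal_lt_iff_lt_toReal (by positivity) (hfin _)]
    have e2 : ENNReal.ofReal ((x.2.1 : ℝ) / (x.2.2 + 1)) =
        ((x.2.1 : ℕ) : ℝ≥0∞) / ((x.2.2 + 1 : ℕ) : ℝ≥0∞) := by
      rw [ENNReal.ofReal_div_of_pos (by positivity), ENNReal.ofReal_natCast]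
      congr 1
      rw [← Nat.cast_succ, ENNReal.ofReal_natCast]
    rw [e2]


theorem exists_index {X Y : ℕ → Bool} (h : TLe X Y) :
    ∃ c : Code, ∀ n b, X n = b ↔ ∃ s, Dv c (pre Y s) n b := by
  obtain ⟨E, hE, hm, hX⟩ := tLe_iff.1 h
  obtain ⟨c, hc⟩ := Nat.Partrec.Code.exists_code.1 hE.re
  have hc1 : ∀ x : List Bool × ℕ × Bool, E x ↔ ∃ r, (c.evaln r (encode x)).isSome = true := by
    intro x
    have h1 : (c.eval (encode x)).Dom ↔ E x := by
      rw [hc]
      simp [Part.assert]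
    rw [← h1]
    constructor
    · intro h
      obtain ⟨y, hy⟩ := Part.dom_iff_mem.1 h
      obtain ⟨k, hk⟩ := Nat.Partrec.Code.evaln_complete.1 hy
      exact ⟨k, Option.isSome_iff_exists.2 ⟨y, hk⟩⟩
    · rintro ⟨n, hn⟩
      obtain ⟨y, hy⟩ := Option.isSome_iff_exists.1 hn
      exact Part.dom_iff_mem.2 ⟨y, Nat.Partrec.Code.evaln_sound hy⟩
  refine ⟨c, fun n b => ?_⟩
  rw [hX n b]
  constructor
  · rintro ⟨s, hs⟩
    obtain ⟨r, hr⟩ := (hc1 _).1 hs
    refine ⟨s + r, s, by rw [length_pre]; omega, ?_⟩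
    rw [take_pre _ _ _ (by omega), length_pre]
    obtain ⟨y, hy⟩ := Option.isSome_iff_exists.1 hr
    exact Option.isSome_iff_exists.2 ⟨y, Code.evaln_mono (by omega) hy⟩
  · rintro ⟨s, k, hk, h1⟩
    rw [length_pre] at hk
    rw [take_pre _ _ _ (by omega)] at h1
    exact ⟨k, (hc1 _).2 ⟨_, h1⟩⟩

theorem mem_GG {c : Code} {X Y : ℕ → Bool} (h : ∀ n b, X n = b ↔ ∃ s, Dv c (pre Y s) n b) (N : ℕ) :
    Y ∈ GG c (blk X 0 N) := by
  have h1 : ∀ n, ∃ t, Tv c (pre Y t) n (X n) := by
    intro n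
    obtain ⟨s, hs⟩ := (h n (X n)).1 rfl
    have hno : ∀ s, ¬ Dv c (pre Y s) n (!(X n)) := by
      intro s hs
      have := (h n (!(X n))).2 ⟨s, hs⟩
      cases hb : X n <;> rw [hb] at this <;> simp at this
    refine ⟨s, s, by simp, ⟨by rwa [take_pre _ _ _ le_rfl], ?_⟩, fun j hj => ?_⟩
    · rintro ⟨h2, h3⟩
      rw [take_pre _ _ _ le_rfl] at h3
      have := hno s
      rw [h2] at this
      exact this h3
    · rw [take_pre _ _ _ hj.le]
      exact hno j
  choose g hg using h1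
  refine ⟨(Finset.range N).sup g, fun i hi => ?_⟩
  have hN : i < N := by simpa [blk] using hi
  have e : (blk X 0 N).getD i false = X i := by
    simp [blk, List.getD_eq_getElem?_getD, hN]
  rw [e]
  exact Tv_mono (pre_prefix Y (Finset.le_sup (f := g) (Finset.mem_range.2 hN))) (hg i)

theorem negligible_of_deep {P : Set (ℕ → Bool)}
    (h : ∀ ν : List Bool → ℝ, IsLeftCESemimeasure ν → Deep ν P) : Negligible P := by
  unfold Negligible
  have hsub : {Y | ∃ X ∈ P, TLe X Y} ⊆
      ⋃ c : Code, {Y | ∃ X ∈ P, ∀ n b, X n = b ↔ ∃ s, Dv c (pre Y s) n b} := by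
    rintro Y ⟨X, hX, hT⟩
    obtain ⟨c, hc⟩ := exists_index hT
    exact Set.mem_iUnion.2 ⟨c, X, hX, hc⟩
  refine measure_mono_null hsub ?_
  rw [measure_iUnion_null_iff]
  intro c
  obtain ⟨g, _, hg⟩ := h (nu c) (nu_sm c)
  have hle : ∀ n : ℕ, lam {Y | ∃ X ∈ P, ∀ n b, X n = b ↔ ∃ s, Dv c (pre Y s) n b} ≤
      ENNReal.ofReal ((1 / 2 : ℝ) ^ n) := by
    intro n
    have h1 : {Y | ∃ X ∈ P, ∀ n b, X n = b ↔ ∃ s, Dv c (pre Y s) n b} ⊆
        ⋃ σ ∈ (str (g n)).filter (fun σ => σ ∈ restr P (g n)), GG c σ := by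
      rintro Y ⟨X, hX, hc⟩
      rw [Set.mem_iUnion₂]
      refine ⟨blk X 0 (g n), ?_, mem_GG hc _⟩
      rw [Finset.mem_filter, mem_str]
      exact ⟨by simp [blk], X, hX, rfl⟩
    refine (measure_mono h1).trans ((measure_biUnion_finset_le _ _).trans ?_)
    have h2 : ∑ σ ∈ (str (g n)).filter (fun σ => σ ∈ restr P (g n)), lam (GG c σ) =
        ENNReal.ofReal (∑ σ ∈ (str (g n)).filter (fun σ => σ ∈ restr P (g n)), nu c σ) := by
      rw [ENNReal.ofReal_sum_of_nonneg (fun σ _ => (nu_sm c).nonneg σ)]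
      refine Finset.sum_congr rfl fun σ _ => ?_
      unfold nu
      rw [ENNReal.ofReal_toReal (measure_ne_top _ _)]
    rw [h2]
    refine ENNReal.ofReal_le_ofReal ((le_of_eq ?_).trans (hg n))
    rw [tsum_subtype (restr P (g n)) (nu c), tsum_eq_sum (s := (str (g n)).filter
      (fun σ => σ ∈ restr P (g n)))]
    · refine Finset.sum_congr rfl fun σ hσ => ?_
      rw [Set.indicator_of_mem (Finset.mem_filter.1 hσ).2]
    · intro σ hσ
      rw [Set.indicator_of_notMem]
      intro hmem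
      apply hσ
      rw [Finset.mem_filter, mem_str]
      refine ⟨?_, hmem⟩
      obtain ⟨X, _, rfl⟩ := hmem
      simp [blk]
  have hlim : Filter.Tendsto (fun n : ℕ => ENNReal.ofReal ((1 / 2 : ℝ) ^ n)) Filter.atTop
      (nhds 0) := by
    have := ENNReal.tendsto_ofReal (tendsto_pow_atTop_nhds_zero_of_lt_one
      (by norm_num : (0 : ℝ) ≤ 1 / 2) (by norm_num))
    simpa using this
  exact le_antisymm (ge_of_tendsto' hlim hle) bot_le

end Pool.Agent.H837R3.Dp
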