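import Pool.Agent.H837R3.Dp.Greedy

/-!
# The order function is sublinear
-/

set_option autoImplicit false

namespace Pool.Agent.H837R3.Dp

open Filter Topology

theorem isOrder_ff : IsOrder ff := by
  refine ⟨primrec_ff.to_comp, ff_mono, fun b => ⟨sc (b + 1), ?_⟩⟩
  refine le_trans ?_ (le_ff (i := b + 1) le_rfl)
  have h0 : 0 < Nat.sqrt (b + 1) := Nat.sqrt_pos.2 (by omega)
  rw [Nat.le_div_iff_mul_le h0]
  have h1 : Nat.sqrt (b + 1) ≤ b + 1 := Nat.sqrt_le_self _
  have h2 := lt_sc b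
  have h3 : b < 4 ^ sc b := by
    calc b < sc b := h2
      _ < 4 ^ sc b := Nat.lt_pow_self (by norm_num)
  rw [sc_succ]
  exact Nat.mul_le_mul h3.le (h1.trans h2)

theorem mul_ff_le (K : ℕ) (hK : 0 < K) {n : ℕ} (hn : K * sc (K * K) ≤ n) : K * ff n ≤ n := by
  have h : ff n ≤ n / K := by
    rw [ff_le_iff]
    intro i hi
    rcases Nat.lt_or_ge i (K * K) with h1 | h1
    · refine (Nat.div_le_self _ _).trans ((sc_mono h1.le).trans ?_)
      rw [Nat.le_div_iff_mul_le hK, mul_comm]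
      exact hn
    · exact Nat.div_le_div hi (Nat.le_sqrt.2 h1) hK.ne'
  calc K * ff n ≤ K * (n / K) := Nat.mul_le_mul_left _ h
    _ ≤ n := Nat.mul_div_le n K

theorem tendsto_ff : Tendsto (fun n : ℕ => (ff n : ℝ) / n) atTop (𝓝 0) := by
  rw [Metric.tendsto_atTop]
  intro ε hε
  obtain ⟨K, hK⟩ := exists_nat_gt (1 / ε)
  have hK0 : 0 < K := by
    have : (0 : ℝ) < K := lt_trans (by positivity) hK
    exact_mod_cast this
  refine ⟨K * sc (K * K) + 1, fun n hn => ?_⟩
  have h1 := mul_ff_le K hK0 (n := n) (by omega)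
  have hn0 : (0 : ℝ) < n := by exact_mod_cast (by omega : 0 < n)
  rw [Real.dist_eq, sub_zero, abs_of_nonneg (by positivity), div_lt_iff₀ hn0]
  have h2 : (K : ℝ) * ff n ≤ n := by exact_mod_cast h1
  have hK' : (0 : ℝ) < K := by exact_mod_cast hK0
  have h3 : (1 : ℝ) < ε * K := by
    rw [div_lt_iff₀ hε] at hK
    linarith
  have h4 : (ff n : ℝ) ≤ n / K := by
    rw [le_div_iff₀ hK']; linarith
  calc (ff n : ℝ) ≤ n / K := h4
    _ < ε * n := by
      rw [div_lt_iff₀ hK']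
      nlinarith

end Pool.Agent.H837R3.Dp
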