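import Pool.Agent.H837R3.Dp.Scales
import Pool.Agent.H837R3.Dp.Defs
import Pool.Agent.Helper227.Meas
import Pool.Agent.Helper227.KC2

/-!
# The greedy enumeration
-/

set_option autoImplicit false

namespace Pool.Agent.H837R3.Dp

open Encodable Pool.Agent.Helper227
open scoped Classical

/-! ### primitive recursiveness of the basic functions -/

theorem primrec_sc : Primrec sc := by
  have : Primrec fun n : ℕ => (Nat.rec 1 (fun _ r => 4 ^ r * r) n : ℕ) := by
    refine Primrec.nat_rec' (f := fun n : ℕ => n) (g := fun _ => 1)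
      (h := fun _ p => 4 ^ p.2 * p.2) Primrec.id (Primrec.const _) ?_
    exact Primrec.nat_mul.comp (primrec_pow.comp (Primrec.const 4) (Primrec.snd.comp Primrec.snd))
      (Primrec.snd.comp Primrec.snd)
  refine this.of_eq fun n => ?_
  induction n with
  | zero => rfl
  | succ n ih => simp only [ih, sc]

theorem primrec_ff : Primrec ff := by
  unfold ff
  refine Primrec.list_foldr (h := fun (_ : ℕ) (p : ℕ × ℕ) => max p.1 p.2) ?_ (Primrec.const 0) ?_
  · refine Primrec.list_map (Primrec.list_range.comp Primrec.succ) ?_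
    refine Primrec.ite (Primrec.nat_le.comp (primrec_sc.comp Primrec.snd) Primrec.fst) ?_
      (Primrec.const 0)
    exact Primrec.nat_div.comp (primrec_sc.comp Primrec.snd) (Primrec.nat_sqrt.comp Primrec.snd)
  · exact Primrec.nat_max.comp (Primrec.fst.comp Primrec.snd) (Primrec.snd.comp Primrec.snd)

theorem primrec_sub : Primrec fun x : List Bool × ℕ × ℕ => sub x.1 x.2.1 x.2.2 := by
  unfold sub
  exact Primrec.list_take.comp (Primrec.snd.comp Primrec.snd)
    (Primrec.list_drop.comp (Primrec.fst.comp Primrec.snd) Primrec.fst)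

theorem primrec_inf : PrimrecRel inf := by
  refine PP.ex_lt (α := List Bool × List Bool) (f := fun y => y.2.length + 1)
    (p := fun y a => sub y.2 a y.1.length = y.1) ?_
    (Primrec.succ.comp (Primrec.list_length.comp Primrec.snd))
  refine Primrec.eq.comp (primrec_sub.comp ((Primrec.snd.comp Primrec.fst).pair
    (Primrec.snd.pair (Primrec.list_length.comp (Primrec.fst.comp Primrec.fst))))) ?_
  exact Primrec.fst.comp Primrec.fst

/-- `x` has no block in `L` -/
def avoid (L : List (List Bool)) (x : List Bool) : Prop := ∀ v ∈ L, ¬ inf v x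

theorem primrec_avoid : PrimrecRel avoid := by
  refine PP.all_mem (α := List (List Bool) × List Bool) (f := fun y => y.1)
    (p := fun y v => ¬ inf v y.2) ?_ Primrec.fst
  exact PrimrecPred.not (primrec_inf.comp Primrec.snd (Primrec.snd.comp Primrec.fst))

theorem primrec_kk : Primrec kk := by
  unfold kk bb
  have h : Primrec fun p : ℕ => p + 10 := Primrec.nat_add.comp Primrec.id (Primrec.const 10)
  exact Primrec.nat_mul.comp (Primrec.nat_add.comp h (Primrec.const 1))
    (Primrec.nat_add.comp h (Primrec.const 3))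

theorem primrec_NN : Primrec NN := primrec_sc.comp primrec_kk

/-- the precision -/
def JJ (p : ℕ) : ℕ := NN p + p + 1

theorem primrec_JJ : Primrec JJ := by
  unfold JJ
  exact Primrec.succ.comp (Primrec.nat_add.comp primrec_NN Primrec.id)

variable (q : List Bool × ℕ × ℕ → ℕ → Prop)

/-- the stage `t` approximation of `2 ^ J * ν x` -/
noncomputable def apx (J t : ℕ) (x : List Bool) : ℕ :=
  ((List.range (2 ^ J)).filter fun j => q (x, j + 1, 2 ^ J - 1) t).length

variable {q} in
theorem primrec_apx (hq : PrimrecRel q) :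
    Primrec fun y : ℕ × ℕ × List Bool => apx q y.1 y.2.1 y.2.2 := by
  have h1 : PrimrecRel (fun (j : ℕ) (y : ℕ × ℕ × List Bool) =>
      q (y.2.2, j + 1, 2 ^ y.1 - 1) y.2.1) := by
    refine hq.comp ?_ (Primrec.fst.comp (Primrec.snd.comp Primrec.snd))
    refine (Primrec.snd.comp (Primrec.snd.comp Primrec.snd)).pair
      ((Primrec.succ.comp Primrec.fst).pair (Primrec.nat_sub.comp (primrec_pow.comp
        (Primrec.const 2) (Primrec.fst.comp Primrec.snd)) (Primrec.const 1)))
  exact Primrec.list_length.comp (h1.listFilter.comp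
    (Primrec.list_range.comp (primrec_pow.comp (Primrec.const 2) Primrec.fst)) Primrec.id)

/-- the mass of the strings of length `NN p` that avoid `L` and contain `u` -/
noncomputable def kil (p t : ℕ) (L : List (List Bool)) (u : List Bool) : ℕ :=
  (((allStr (NN p)).filter fun x => avoid L x ∧ inf u x).map fun x => apx q (JJ p) t x).foldr
    (· + ·) 0

variable {q} in
theorem primrec_kil (hq : PrimrecRel q) :
    Primrec fun y : ℕ × ℕ × List (List Bool) × List Bool => kil q y.1 y.2.1 y.2.2.1 y.2.2.2 := by
  have h1 : PrimrecRel (fun (x : List Bool) (y : ℕ × ℕ × List (List Bool) × List Bool) =>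
      avoid y.2.2.1 x ∧ inf y.2.2.2 x) := by
    refine PrimrecPred.and ?_ ?_
    · exact primrec_avoid.comp (Primrec.fst.comp (Primrec.snd.comp (Primrec.snd.comp Primrec.snd)))
        Primrec.fst
    · exact primrec_inf.comp (Primrec.snd.comp (Primrec.snd.comp (Primrec.snd.comp Primrec.snd)))
        Primrec.fst
  have h2 : Primrec fun y : ℕ × ℕ × List (List Bool) × List Bool =>
      (allStr (NN y.1)).filter fun x => avoid y.2.2.1 x ∧ inf y.2.2.2 x :=
    h1.listFilter.comp (primrec_allStr.comp (primrec_NN.comp Primrec.fst)) Primrec.id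
  refine Primrec.list_foldr
    (h := fun (_ : ℕ × ℕ × List (List Bool) × List Bool) (p : ℕ × ℕ) => p.1 + p.2)
    (Primrec.list_map h2 ?_) (Primrec.const 0) ?_
  · exact (primrec_apx hq).comp ((primrec_JJ.comp (Primrec.fst.comp Primrec.fst)).pair
      ((Primrec.fst.comp (Primrec.snd.comp Primrec.fst)).pair Primrec.snd))
  · exact Primrec.nat_add.comp (Primrec.fst.comp Primrec.snd) (Primrec.snd.comp Primrec.snd)

/-- the candidate of stage `t` -/
def cand (t : ℕ) : List Bool := (decode (α := List Bool) t.unpair.1).getD []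

theorem primrec_cand : Primrec cand := by
  unfold cand
  exact Primrec.option_getD.comp (Primrec.decode.comp (Primrec.fst.comp Primrec.unpair))
    (Primrec.const [])

/-- the candidate is added -/
def Cnd (p t : ℕ) (L : List (List Bool)) : Prop :=
  2 ^ (JJ p + (3 * p + 1)) ≤ 2 ^ ff (cand t).length * kil q p t L (cand t)

variable {q} in
theorem primrec_Cnd (hq : PrimrecRel q) :
    PrimrecPred fun y : ℕ × ℕ × List (List Bool) => Cnd q y.1 y.2.1 y.2.2 := by
  unfold Cnd
  have hc : Primrec fun y : ℕ × ℕ × List (List Bool) => cand y.2.1 :=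
    primrec_cand.comp (Primrec.fst.comp Primrec.snd)
  refine Primrec.nat_le.comp ?_ ?_
  · refine primrec_pow.comp (Primrec.const 2) (Primrec.nat_add.comp (primrec_JJ.comp Primrec.fst) ?_)
    exact Primrec.succ.comp (Primrec.nat_mul.comp (Primrec.const 3) Primrec.fst)
  · refine Primrec.nat_mul.comp (primrec_pow.comp (Primrec.const 2)
      (primrec_ff.comp (Primrec.list_length.comp hc))) ?_
    exact (primrec_kil hq).comp (g := fun y : ℕ × ℕ × List (List Bool) =>
      (y.1, y.2.1, y.2.2, cand y.2.1)) (Primrec.fst.pair ((Primrec.fst.comp Primrec.snd).pair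
      ((Primrec.snd.comp Primrec.snd).pair hc)))

/-- the strings added before stage `t` -/
noncomputable def LL (p : ℕ) : ℕ → List (List Bool)
  | 0 => []
  | t + 1 => if Cnd q p t (LL p t) then cand t :: LL p t else LL p t

variable {q} in
theorem primrec_LL (hq : PrimrecRel q) : Primrec₂ (LL q) := by
  have : Primrec fun y : ℕ × ℕ => (Nat.rec [] (fun t IH =>
      if Cnd q y.1 t IH then cand t :: IH else IH) y.2 : List (List Bool)) := by
    refine Primrec.nat_rec' (f := fun y : ℕ × ℕ => y.2) (g := fun _ => ([] : List (List Bool)))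
      (h := fun y p => if Cnd q y.1 p.1 p.2 then cand p.1 :: p.2 else p.2) Primrec.snd
      (Primrec.const _) ?_
    refine Primrec.ite ?_ ?_ (Primrec.snd.comp Primrec.snd)
    · exact (primrec_Cnd hq).comp (f := fun z : (ℕ × ℕ) × (ℕ × List (List Bool)) =>
        (z.1.1, z.2.1, z.2.2)) ((Primrec.fst.comp Primrec.fst).pair
        ((Primrec.fst.comp Primrec.snd).pair (Primrec.snd.comp Primrec.snd)))
    · exact Primrec.list_cons.comp (primrec_cand.comp (Primrec.fst.comp Primrec.snd))
        (Primrec.snd.comp Primrec.snd)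
  refine this.of_eq fun y => ?_
  obtain ⟨p, t⟩ := y
  show _ = LL q p t
  induction t with
  | zero => rfl
  | succ t ih =>
    simp only at ih
    simp only [ih, LL]

/-- the requests -/
noncomputable def req (m : ℕ) : Option (ℕ × List Bool) :=
  if Cnd q m.unpair.1 m.unpair.2 (LL q m.unpair.1 m.unpair.2) then
    some (ff (cand m.unpair.2).length - 2 * m.unpair.1, cand m.unpair.2) else none

variable {q} in
theorem primrec_req (hq : PrimrecRel q) : Primrec (req q) := by
  have h1 : Primrec fun m : ℕ => m.unpair.1 := Primrec.fst.comp Primrec.unpair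
  have h2 : Primrec fun m : ℕ => m.unpair.2 := Primrec.snd.comp Primrec.unpair
  unfold req
  refine Primrec.ite ?_ ?_ (Primrec.const none)
  · exact (primrec_Cnd hq).comp (f := fun m : ℕ =>
      (m.unpair.1, m.unpair.2, LL q m.unpair.1 m.unpair.2))
      (h1.pair (h2.pair ((primrec_LL hq).comp h1 h2)))
  · refine Primrec.option_some.comp (Primrec.pair ?_ (primrec_cand.comp h2))
    exact Primrec.nat_sub.comp (primrec_ff.comp (Primrec.list_length.comp (primrec_cand.comp h2)))
      (Primrec.nat_mul.comp (Primrec.const 2) h1)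

end Pool.Agent.H837R3.Dp
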