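import Pool.Agent.H837R3.Dp.Kill

/-!
# The scales, the order function and the averaging lemma for blocks
-/

set_option autoImplicit false

namespace Pool.Agent.H837R3.Dp

open Finset

/-- The scales. -/
def sc : ℕ → ℕ
  | 0 => 1
  | i + 1 => 4 ^ sc i * sc i

theorem sc_succ (i : ℕ) : sc (i + 1) = 4 ^ sc i * sc i := rfl

theorem lt_sc (i : ℕ) : i < sc i := by
  induction i with
  | zero => simp [sc]
  | succ i ih =>
    rw [sc_succ]
    have h1 : 4 ^ 1 ≤ 4 ^ sc i := Nat.pow_le_pow_right (by norm_num) (by omega)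
    calc i + 1 < 4 * sc i := by omega
      _ ≤ 4 ^ sc i * sc i := Nat.mul_le_mul_right _ (by simpa using h1)

theorem sc_pos (i : ℕ) : 0 < sc i := Nat.zero_lt_of_lt (lt_sc i)

theorem sc_le_succ (i : ℕ) : sc i ≤ sc (i + 1) := by
  rw [sc_succ]
  exact Nat.le_mul_of_pos_left _ (by positivity)

theorem sc_mono : Monotone sc := monotone_nat_of_le_succ sc_le_succ

/-- The order function: `ff n` is the maximum of `⌊M_i / ⌊√i⌋⌋` over the scales `M_i ≤ n`. -/
def ff (n : ℕ) : ℕ :=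
  ((List.range (n + 1)).map fun i => if sc i ≤ n then sc i / Nat.sqrt i else 0).foldr max 0

theorem foldr_max_le {l : List ℕ} {b : ℕ} : l.foldr max 0 ≤ b ↔ ∀ a ∈ l, a ≤ b := by
  induction l with
  | nil => simp
  | cons a l ih => simp [ih]

theorem ff_le_iff {n b : ℕ} : ff n ≤ b ↔ ∀ i, sc i ≤ n → sc i / Nat.sqrt i ≤ b := by
  unfold ff
  rw [foldr_max_le]
  simp only [List.mem_map, List.mem_range, forall_exists_index, and_imp]
  constructor
  · intro h i hi
    have h1 := lt_sc i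
    have h2 := h _ i (by omega) rfl
    rwa [if_pos hi] at h2
  · rintro h a i hi rfl
    split_ifs with h1
    · exact h i h1
    · exact Nat.zero_le _

theorem le_ff {n i : ℕ} (h : sc i ≤ n) : sc i / Nat.sqrt i ≤ ff n := ff_le_iff.1 le_rfl i h

theorem ff_mono : Monotone ff := by
  intro a b hab
  rw [ff_le_iff]
  intro i hi
  exact le_ff (hi.trans hab)

/-- The block `x_a ... x_(a+m-1)` of `x`. -/
def sub (x : List Bool) (a m : ℕ) : List Bool := (x.drop a).take m

/-- `u` is a block of consecutive bits of `x`. -/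
def inf (u x : List Bool) : Prop := ∃ a < x.length + 1, sub x a u.length = u

/-- The blocks of length `m` of `x`. -/
def DD (m : ℕ) (x : List Bool) : Finset (List Bool) :=
  (Finset.range (x.length + 1 - m)).image fun a => sub x a m

theorem mem_DD {m : ℕ} {x u : List Bool} : u ∈ DD m x ↔ ∃ a, a + m ≤ x.length ∧ sub x a m = u := by
  unfold DD
  rw [mem_image]
  constructor
  · rintro ⟨a, ha, h⟩
    rw [mem_range] at ha
    exact ⟨a, by omega, h⟩
  · rintro ⟨a, ha, h⟩
    exact ⟨a, by rw [mem_range]; omega, h⟩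

theorem length_sub {x : List Bool} {a m : ℕ} (h : a + m ≤ x.length) : (sub x a m).length = m := by
  unfold sub
  rw [List.length_take, List.length_drop]
  omega

theorem length_of_mem_DD {m : ℕ} {x u : List Bool} (h : u ∈ DD m x) : u.length = m := by
  obtain ⟨a, ha, rfl⟩ := mem_DD.1 h
  exact length_sub ha

theorem inf_of_mem_DD {m : ℕ} {x u : List Bool} (h : u ∈ DD m x) : inf u x := by
  have hl := length_of_mem_DD h
  obtain ⟨a, ha, h1⟩ := mem_DD.1 h
  exact ⟨a, by omega, by rw [hl]; exact h1⟩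

theorem sub_mul (x : List Bool) (a m q : ℕ) :
    sub x a (q * m) = ((List.range q).map fun j => sub x (a + j * m) m).flatten := by
  induction q with
  | zero => simp [sub]
  | succ q ih =>
    rw [List.range_succ, List.map_append, List.flatten_append, ← ih]
    simp only [List.map_cons, List.map_nil, List.flatten_cons, List.flatten_nil, List.append_nil]
    unfold sub
    rw [Nat.succ_mul, List.take_add, List.drop_drop]

/-- parameters -/
def bb (p : ℕ) : ℕ := p + 10
def ss (p : ℕ) : ℕ := bb p * (bb p + 2)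
def kk (p : ℕ) : ℕ := (bb p + 1) * (bb p + 3)
def NN (p : ℕ) : ℕ := sc (kk p)

theorem kk_eq (p : ℕ) : kk p = ss p + (2 * (bb p + 1) + 1) := by unfold kk ss; ring

theorem sqrt_eq {p i : ℕ} (h1 : ss p < i) (h2 : i ≤ kk p) : Nat.sqrt i = bb p + 1 := by
  symm
  rw [Nat.eq_sqrt]
  unfold ss at h1
  unfold kk at h2
  constructor
  · nlinarith
  · nlinarith

theorem le_ff_real {p i : ℕ} (h1 : ss p < i) (h2 : i ≤ kk p) :
    (sc i : ℝ) / ((bb p : ℝ) + 1) - 1 ≤ (ff (sc i) : ℝ) := by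
  have h3 : sc i / (bb p + 1) ≤ ff (sc i) := by
    rw [← sqrt_eq h1 h2]; exact le_ff le_rfl
  have h4 : (sc i : ℝ) / ((bb p : ℝ) + 1) < (sc i / (bb p + 1) : ℕ) + 1 := by
    rw [div_lt_iff₀ (by positivity)]
    have := Nat.lt_div_mul_add (a := sc i) (b := bb p + 1) (by omega)
    have h5 : sc i < (sc i / (bb p + 1) + 1) * (bb p + 1) := by
      calc sc i < sc i / (bb p + 1) * (bb p + 1) + (bb p + 1) := this
        _ = (sc i / (bb p + 1) + 1) * (bb p + 1) := by ring
    exact_mod_cast h5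
  have h6 : ((sc i / (bb p + 1) : ℕ) : ℝ) ≤ (ff (sc i) : ℝ) := by exact_mod_cast h3
  linarith

/-- the exponent of the efficiency -/
def Om (p : ℕ) : ℕ := 6 * p + 25

theorem Om_le (p : ℕ) : Om p + 1 ≤ 2 ^ sc (ss p) := by
  have h1 : bb p ≤ sc (ss p) := by
    have := lt_sc (ss p)
    have h2 : bb p ≤ ss p := by unfold ss; nlinarith
    omega
  calc Om p + 1 ≤ 2 ^ (p + 10) := by
        unfold Om
        have : p < 2 ^ p := Nat.lt_two_pow_self
        rw [pow_add]
        omega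
    _ ≤ 2 ^ sc (ss p) := Nat.pow_le_pow_right (by norm_num) h1

/-- the exponents `A_i`, `i = s + j` -/
noncomputable def AA (p : ℕ) : ℕ → ℝ
  | 0 => sc (ss p)
  | j + 1 => 2 ^ sc (ss p + j) + 4 ^ sc (ss p + j) * AA p j + Om p - ff (sc (ss p + j + 1))

theorem AA_le (p : ℕ) (j : ℕ) (hj : j ≤ 2 * (bb p + 1) + 1) :
    AA p j ≤ sc (ss p + j) * (1 - j / (2 * ((bb p : ℝ) + 1))) := by
  induction j with
  | zero => simp [AA]
  | succ j ih =>
    have ih := ih (by omega)
    obtain ⟨i, hi⟩ : ∃ i, i = ss p + j := ⟨_, rfl⟩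
    rw [AA, ← hi]
    rw [← hi] at ih
    rw [show ss p + (j + 1) = i + 1 by omega]
    have hf := le_ff_real (p := p) (i := i + 1) (by omega) (by rw [kk_eq]; omega)
    obtain ⟨R, hR⟩ : ∃ R : ℝ, R = (bb p : ℝ) + 1 := ⟨_, rfl⟩
    rw [← hR] at ih hf ⊢
    have hR0 : 0 < R := by rw [hR]; positivity
    have hsc : (sc (i + 1) : ℝ) = 4 ^ sc i * sc i := by rw [sc_succ]; push_cast; ring
    have hO : (Om p : ℝ) + 1 ≤ 2 ^ sc i := by
      have h1 := Om_le p
      have h2 : 2 ^ sc (ss p) ≤ 2 ^ sc i :=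
        Nat.pow_le_pow_right (by norm_num) (sc_mono (by omega))
      exact_mod_cast h1.trans h2
    have hRi : R ≤ sc i := by
      have h1 : bb p + 1 ≤ sc i := by
        have := lt_sc i
        have h2 : bb p ≤ ss p := by unfold ss; nlinarith
        omega
      rw [hR]; exact_mod_cast h1
    have h4 : (4 : ℝ) ≤ 2 ^ sc i := by
      have h1 : 2 ≤ sc i := by
        have := lt_sc i
        have h2 : 10 ≤ ss p := by unfold ss bb; nlinarith
        omega
      calc (4 : ℝ) = 2 ^ 2 := by norm_num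
        _ ≤ 2 ^ sc i := pow_le_pow_right₀ (by norm_num) h1
    have h44 : (4 : ℝ) ^ sc i = 2 ^ sc i * 2 ^ sc i := by
      rw [← mul_pow]; norm_num
    have hkey : (2 : ℝ) ^ sc i + Om p + 1 ≤ (sc (i + 1) : ℝ) / (2 * R) := by
      rw [le_div_iff₀ (by positivity), hsc, h44]
      have h5 : (2 : ℝ) ^ sc i + Om p + 1 ≤ 2 * 2 ^ sc i := by linarith
      calc ((2 : ℝ) ^ sc i + Om p + 1) * (2 * R) ≤ (2 * 2 ^ sc i) * (2 * R) :=
            mul_le_mul_of_nonneg_right h5 (by positivity)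
        _ = 2 ^ sc i * 4 * R := by ring
        _ ≤ 2 ^ sc i * 2 ^ sc i * R := by
            refine mul_le_mul_of_nonneg_right ?_ hR0.le
            exact mul_le_mul_of_nonneg_left h4 (by positivity)
        _ ≤ 2 ^ sc i * 2 ^ sc i * sc i := mul_le_mul_of_nonneg_left hRi (by positivity)
    have h6 : (4 : ℝ) ^ sc i * AA p j ≤ sc (i + 1) * (1 - j / (2 * R)) := by
      rw [hsc, mul_assoc]
      exact mul_le_mul_of_nonneg_left ih (by positivity)
    have h7 : (sc (i + 1) : ℝ) * (1 - ((j + 1 : ℕ) : ℝ) / (2 * R)) =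
        sc (i + 1) * (1 - j / (2 * R)) - sc (i + 1) / R + sc (i + 1) / (2 * R) := by
      push_cast
      field_simp
      ring
    rw [h7]
    linarith

theorem AA_last (p : ℕ) : AA p (2 * (bb p + 1) + 1) < 0 := by
  refine (AA_le p _ le_rfl).trans_lt ?_
  refine mul_neg_of_pos_of_neg (by exact_mod_cast sc_pos _) ?_
  rw [sub_neg, lt_div_iff₀ (by positivity)]
  push_cast
  linarith

theorem kill_scales (p : ℕ) (X : Finset (List Bool)) (ν : List Bool → ℝ) (hν : ∀ x ∈ X, 0 ≤ ν x)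
    (hX : ∀ x ∈ X, x.length = NN p) (hmass : (1 / 2 : ℝ) ^ (p + 1) < ∑ x ∈ X, ν x)
    (dec : ∀ u : List Bool, DecidablePred fun x => inf u x) :
    ∃ u : List Bool, (2 : ℝ) ^ (3 * p + 1) / 2 ^ ff u.length ≤ ∑ x ∈ X.filter (fun x => inf u x), ν x := by
  classical
  have hpos : 0 < ∑ x ∈ X, ν x := lt_trans (by positivity) hmass
  obtain ⟨i, h1, h2, u, h3, h4⟩ := kill X ν hν sc (fun i => 4 ^ sc i) (fun i x => DD (sc i) x)
    (fun i x _ y hy => length_of_mem_DD hy) (ss p) (kk p) (by rw [kk_eq]; omega)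
    (by
      intro i hi1 hi2 x hx y hy
      obtain ⟨a, ha, rfl⟩ := mem_DD.1 hy
      refine ⟨(List.range (4 ^ sc i)).map fun j => sub x (a + j * sc i) (sc i), by simp, ?_, ?_⟩
      · intro z hz
        rw [List.mem_map] at hz
        obtain ⟨j, hj, rfl⟩ := hz
        rw [List.mem_range] at hj
        refine mem_DD.2 ⟨_, ?_, rfl⟩
        rw [sc_succ] at ha
        have : (j + 1) * sc i ≤ 4 ^ sc i * sc i := Nat.mul_le_mul_right _ hj
        calc a + j * sc i + sc i = a + (j + 1) * sc i := by ring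
          _ ≤ a + 4 ^ sc i * sc i := by omega
          _ ≤ x.length := ha
      · rw [← sub_mul, sc_succ])
    (by
      intro x hx
      refine ⟨sub x 0 (sc (kk p)), mem_DD.2 ⟨0, ?_, rfl⟩⟩
      rw [hX x hx, NN, Nat.zero_add])
    (fun i => (2 : ℝ) ^ (AA p (i - ss p))) (fun i => (2 : ℝ) ^ Om p / 2 ^ ff (sc i))
    (by
      simp only [Nat.sub_self]
      rw [AA, Real.rpow_natCast])
    (fun i => by positivity)
    (by
      intro i hi1 hi2
      show (2 : ℝ) ^ (AA p (i + 1 - ss p)) = _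
      obtain ⟨j, rfl⟩ : ∃ j, i = ss p + j := ⟨i - ss p, by omega⟩
      rw [show ss p + j + 1 - ss p = j + 1 by omega, Nat.add_sub_cancel_left, AA]
      rw [Real.rpow_sub (by norm_num), Real.rpow_add (by norm_num), Real.rpow_add (by norm_num)]
      rw [Real.rpow_natCast, Real.rpow_natCast]
      have e1 : (2 : ℝ) ^ ((2 : ℝ) ^ sc (ss p + j)) = 2 ^ (2 ^ sc (ss p + j)) := by
        rw [← Real.rpow_natCast 2 (2 ^ sc (ss p + j))]
        push_cast
        rfl
      have e2 : (2 : ℝ) ^ ((4 : ℝ) ^ sc (ss p + j) * AA p j) =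
          ((2 : ℝ) ^ (AA p j)) ^ (4 ^ sc (ss p + j)) := by
        rw [mul_comm, Real.rpow_mul (by norm_num), ← Real.rpow_natCast _ (4 ^ sc (ss p + j))]
        push_cast
        rfl
      rw [e1, e2]
      ring)
    (by
      show (2 : ℝ) ^ (AA p (kk p - ss p)) < 1
      rw [kk_eq, Nat.add_sub_cancel_left]
      exact Real.rpow_lt_one_of_one_lt_of_neg (by norm_num) (AA_last p))
    hpos
  refine ⟨u, ?_⟩
  have h5 : ∑ x ∈ X.filter (fun x => u ∈ DD (sc i) x), ν x ≤
      ∑ x ∈ X.filter (fun x => inf u x), ν x := by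
    refine sum_le_sum_of_subset_of_nonneg ?_ ?_
    · intro x hx
      rw [mem_filter] at hx ⊢
      exact ⟨hx.1, inf_of_mem_DD hx.2⟩
    · intro x hx _
      exact hν x (mem_filter.1 hx).1
  refine le_trans ?_ h5
  rw [h3]
  set F := ∑ x ∈ X.filter (fun x => u ∈ DD (sc i) x), ν x with hF
  have hF0 : 0 ≤ F := sum_nonneg fun x hx => hν x (mem_filter.1 hx).1
  have hks : ((kk p - ss p : ℕ) : ℝ) ≤ 2 ^ (2 * p + 23) := by
    have : kk p - ss p = 2 * p + 23 := by rw [kk_eq]; unfold bb; omega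
    rw [this]
    exact_mod_cast (Nat.lt_two_pow_self (n := 2 * p + 23)).le
  have h6 : (2 : ℝ) ^ Om p / 2 ^ ff (sc i) * (1 / 2) ^ (p + 1) ≤ 2 ^ (2 * p + 23) * F := by
    calc (2 : ℝ) ^ Om p / 2 ^ ff (sc i) * (1 / 2) ^ (p + 1)
        ≤ (2 : ℝ) ^ Om p / 2 ^ ff (sc i) * ∑ x ∈ X, ν x :=
          mul_le_mul_of_nonneg_left hmass.le (by positivity)
      _ ≤ ((kk p - ss p : ℕ) : ℝ) * F := h4
      _ ≤ 2 ^ (2 * p + 23) * F := mul_le_mul_of_nonneg_right hks hF0
  have h7 : (2 : ℝ) ^ Om p = 2 ^ (2 * p + 23) * 2 ^ (p + 1) * 2 ^ (3 * p + 1) := by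
    rw [← pow_add, ← pow_add]; congr 1; unfold Om; ring
  rw [h7] at h6
  have h8 : (2 : ℝ) ^ (2 * p + 23) * 2 ^ (p + 1) * 2 ^ (3 * p + 1) / 2 ^ ff (sc i) * (1 / 2) ^ (p + 1) =
      2 ^ (2 * p + 23) * (2 ^ (3 * p + 1) / 2 ^ ff (sc i)) := by
    rw [one_div, inv_pow]
    field_simp
  rw [h8] at h6
  exact le_of_mul_le_mul_left h6 (by positivity)

end Pool.Agent.H837R3.Dp
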